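import Pool.Agent.Q176.MG.Main

set_option autoImplicit false

namespace Pool.Agent.Results.MP_33e66b_co.BoundedCliqueCover

open Pool.Agent.Q176.MG

/-- For every `g ≥ 1`, every `g`-map graph has clique cover degeneracy at most `18 * g`. -/
theorem result (g : ℕ) (hg : 1 ≤ g) (V : Type) (G : SimpleGraph V) (hG : IsMapGraph g G) :
    CliqueCoverDegeneracyLE G (18 * g) :=
  main hg G hG

end Pool.Agent.Results.MP_33e66b_co.BoundedCliqueCover
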